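import Pool.Agent.Lib.MP_237b21_an.EQ.Strict

/-! Strict forms of the bound with one large coefficient. -/

namespace Pool.Agent.Lib.MP_237b21_an.EQ

open Pool.Agent.Lib.MP_237b21_an
open MeasureTheory Set Real Filter
open scoped ENNReal Topology

variable {n : ℕ} {q : ℝ}

/-- The strict inequality when the largest coefficient is normalised to one. -/
def BigS (n : ℕ) (q : ℝ) (k : ℕ) : Prop := ∀ l : List ℝ, l.length = k → ssq l < 1 →
  NN n (Fq q) (1 :: l) < ENNReal.ofReal (CC n q * (1 + ssq l) ^ (-q))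

theorem big_AS (hq : 0 < q) (hqn : 2 * q + 2 ≤ n) (k : ℕ) : BigS n q k := by
  intro l _ hl
  have h2 : (1 / sqrt 2) ^ 2 = 1 / 2 := by rw [div_pow, sq_sqrt (by norm_num), one_pow]
  have h3 : (1 / sqrt 2 / sqrt 2) ^ 2 = 1 / 4 := by
    rw [div_pow, h2, sq_sqrt (by norm_num)]; norm_num
  have h0 := ssq_nonneg l
  have hs : ssq (1 / sqrt 2 / sqrt 2 :: 1 / sqrt 2 / sqrt 2 :: 1 / sqrt 2 :: l) = 1 + ssq l := by
    rw [ssq_cons, ssq_cons, ssq_cons, h2, h3]; ring
  refine ((split hq hqn one_pos l).trans (split hq hqn (by positivity) _)).trans_lt ?_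
  rw [← hs]
  refine small_lt hq (by linarith) _ (by linarith) (fun a ha => ?_) (x := 1 / sqrt 2 / sqrt 2)
    (by simp) (by positivity) (by rw [hs, h3]; linarith)
  rw [hs]
  simp only [List.mem_cons] at ha
  rcases ha with rfl | rfl | rfl | ha
  · linarith
  · linarith
  · linarith
  · linarith [sq_le_ssq ha]

lemma Phi_lt (hq : 0 < q) {x : ℝ} (h0 : 0 ≤ x) (h : x < 1) : Phi q x < (1 + x) ^ (-q) := by
  rw [Phi, if_pos h.le]
  have h1 : 0 < 1 + x := by linarith
  have h2 : 0 < 3 - x := by linarith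
  have h3 : 0 < (1 + x) * (3 - x) := mul_pos h1 h2
  have h4 : (4 : ℝ) ^ (-q) < ((1 + x) * (3 - x)) ^ (-q) :=
    rpow_lt_rpow_of_neg h3 (by nlinarith) (by linarith)
  rw [mul_rpow h1.le h2.le, show (4 : ℝ) = 2 * 2 by norm_num, mul_rpow zero_le_two zero_le_two] at h4
  have h5 := rpow_pos_of_pos h1 (-q)
  have h6 := rpow_pos_of_pos h2 (-q)
  have h7 := rpow_pos_of_pos two_pos (-q)
  by_contra hcon
  have h8 : (1 + x) ^ (-q) + (3 - x) ^ (-q) ≤ 2 * 2 ^ (-q) := by linarith [not_lt.1 hcon]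
  nlinarith [sq_nonneg ((1 + x) ^ (-q) - (3 - x) ^ (-q)),
    mul_le_mul h8 h8 (by positivity) (by positivity)]

theorem big_BS (hq : 0 < q) (hq' : q < ((n : ℝ) + 1) / 2) (hqn : (n : ℝ) / 2 ≤ q) (k : ℕ) :
    BigS n q k := by
  intro l _ hl
  have hP := P1_pos hq'
  have h1 : ∀ r, 0 ≤ r → r ≤ 1 → psi n q r ≤ ENNReal.ofReal (P1 n q) := fun r h0 h1 => by
    rcases h1.eq_or_lt with rfl | h1
    · exact (psi_one hq').le
    exact compare hq rfl (f := fun _ => P1 n q) (f' := fun _ => 0) (f'' := fun _ => 0)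
      (fun y _ => hasDerivAt_const _ _) (fun y _ => hasDerivAt_const _ _) (fun _ _ => hP)
      (Lf := fun _ => -((q - n / 2) * q * P1 n q)) (fun y => by ring) (fun _ _ _ _ _ h => h.le)
      (Or.inr fun _ _ => neg_nonpos.2 (mul_nonneg (mul_nonneg (by linarith) hq.le) hP.le))
      (Or.inl (psi_one hq').le) (Or.inr (psi_one hq').le) h0 h1
  have h2 : ∀ r, 0 ≤ r → psi n q r ≤ ENNReal.ofReal (P1 n q) := fun r h0 => by
    rcases le_total r 1 with h | h
    · exact h1 r h0 h
    rw [psi_inv q (by linarith)]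
    refine mul_le_of_le_one_of_le ?_ (h1 _ (by positivity) (inv_le_one_of_one_le₀ h))
    exact ENNReal.ofReal_le_one.2 (rpow_le_one_of_one_le_of_nonpos (one_le_pow₀ h) (by linarith))
  rw [NN_one_cons]
  refine (NN_mono (fun ρ _ => h2 _ (sqrt_nonneg ρ)) l).trans_lt ?_
  rw [NN_const]
  have h0 := ssq_nonneg l
  have hC := CC_pos hq'
  refine (ENNReal.ofReal_lt_ofReal_iff (by positivity)).2 ((P1_le n q).trans_lt
    (mul_lt_mul_of_pos_left (rpow_lt_rpow_of_neg (by linarith) (by linarith) (by linarith)) hC))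

theorem big_CS (hq : 0 < q) (hq' : q < (n : ℝ) / 2)
    (hB : 1 ≤ CC n q * (2 * 2 ^ (-q) - 3 ^ (-q))) (k : ℕ) : BigS n q k := by
  have hq2 : q < ((n : ℝ) + 1) / 2 := by linarith
  have hC := CC_pos hq2
  have key : ∀ k : ℕ, ∀ l : List ℝ, l.length = k → ssq l ≤ 1 →
      NN n (Fq q) (1 :: l) ≤ ENNReal.ofReal (CC n q * Phi q (ssq l)) := by
    intro k
    induction k using Nat.twoStepInduction with
    | zero =>
      intro l hl _
      obtain rfl := List.length_eq_zero_iff.1 hl
      rw [NN_one, ssq_nil, Phi, if_pos zero_le_one, sub_zero]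
      exact ENNReal.one_le_ofReal.2 hB
    | one =>
      intro l hl h1
      obtain ⟨a, rfl⟩ := List.length_eq_one_iff.1 hl
      rw [ssq_cons, ssq_nil, add_zero] at h1 ⊢
      rw [NN_pair, ← sq_abs]
      exact base_C hq hq' hB (abs_nonneg a) ((sq_le_one_iff_abs_le_one a).1 h1)
    | more k _ ih =>
      have all : ∀ l : List ℝ, l.length = k + 1 →
          NN n (Fq q) (1 :: l) ≤ ENNReal.ofReal (CC n q * Phi q (ssq l)) := fun l hl => by
        rcases le_or_gt (ssq l) 1 with h | h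
        · exact ih l hl h
        have := reduce hq hq2 (k := k + 1) (fun l hl h => (ih l hl h).trans
          (ENNReal.ofReal_le_ofReal (mul_le_mul_of_nonneg_left (Phi_le hq (ssq_nonneg l) h) hC.le)))
          (1 :: l) (by simp [hl]) (by rw [ssq_cons]; linarith)
        rw [ssq_cons, one_pow] at this
        rwa [Phi, if_neg (not_le.2 h)]
      intro l hl h1
      match l, hl with
      | a :: b :: l, hl =>
        have hg : Measurable fun θ => ENNReal.ofReal
            (CC n q * Phi q (ssq (a :: b :: l) + 2 * a * b * θ)) :=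
          (((Phi_meas q).comp (by fun_prop)).const_mul _).ennreal_ofReal
        rw [merge_step (Fq_meas q)]
        refine (lintegral_mono (g := fun α => ENNReal.ofReal
          (CC n q * Phi q (ssq (a :: b :: l) + 2 * a * b * cos α))) fun α => ?_).trans ?_
        · refine (all _ (by simpa using hl)).trans (le_of_eq ?_)
          rw [ssq_cons, sq_sqrt (merge_nonneg a b α), ssq_cons, ssq_cons]
          congr 3; ring
        rw [← ENNReal.mul_le_mul_iff_right (a := 2) (by norm_num) (by norm_num),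
          two_mul (∫⁻ _, _ ∂ang n)]
        nth_rewrite 2 [← ang_symm n _ hg]
        rw [← lintegral_add_left (f := fun α => ENNReal.ofReal
          (CC n q * Phi q (ssq (a :: b :: l) + 2 * a * b * cos α))) (hg.comp measurable_cos)]
        refine (lintegral_mono (g := fun _ => 2 * ENNReal.ofReal
          (CC n q * Phi q (ssq (a :: b :: l)))) fun α => ?_).trans (by simp)
        have hp := Phi_pos hq
        simp only
        rw [two_mul (ENNReal.ofReal _), ← ENNReal.ofReal_add (mul_pos hC (hp _)).le (mul_pos hC (hp _)).le,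
          ← ENNReal.ofReal_add (mul_pos hC (hp _)).le (mul_pos hC (hp _)).le, ← mul_add, ← mul_add,
          ← two_mul (Phi _ _), mul_neg, ← sub_eq_add_neg]
        refine ENNReal.ofReal_le_ofReal (mul_le_mul_of_nonneg_left ?_ hC.le)
        rcases le_total 0 (2 * a * b * cos α) with h | h
        · exact Phi_conc hq h1 h
        · have := Phi_conc hq h1 (neg_nonneg.2 h)
          rwa [sub_neg_eq_add, ← sub_eq_add_neg, add_comm] at this
  exact fun l hl h => (key k l hl h.le).trans_lt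
    ((ENNReal.ofReal_lt_ofReal_iff (mul_pos hC (rpow_pos_of_pos (by linarith [ssq_nonneg l]) _))).2
      (mul_lt_mul_of_pos_left (Phi_lt hq (ssq_nonneg l) h) hC))

theorem big_QS (hq : 0 < q) (h1 : (n : ℝ) / 2 - 1 ≤ q) (h2 : q ≤ (n : ℝ) / 2) {c g : ℝ}
    (hc : c * ((n + 2) / 2) = q * (n / 2 - q)) (hc1 : c < 1) (hg : 0 ≤ g)
    (hy : ∀ y, 1 ≤ y → (y - c) * (y + 1) ≤ (y + 1 + 2 * q * (y - 1)) * (1 - c * y + g * y ^ 2) * y)
    (hD : 1 - c + g * (1 + 2 / (n + 2)) ≤ CC n q * 2 ^ (-q))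
    (hD2 : c ≤ (1 - c) * q / 2) (k : ℕ) : BigS n q k := by
  have hc0 : 0 ≤ c := by
    refine nonneg_of_mul_nonneg_left ?_ (by positivity : (0 : ℝ) < (n + 2) / 2)
    rw [hc]; exact mul_nonneg hq.le (by linarith)
  have hy' : ∀ y, 1 ≤ y → y ^ (-q) * (1 - c * y⁻¹) ≤ 1 - c * y + g * y ^ 2 := fun y h => by
    have h0 : 0 < y := by linarith
    have h3 := le_log_one_add_of_nonneg (x := y - 1) (by linarith)
    rw [add_sub_cancel, show y - 1 + 2 = y + 1 by ring] at h3
    have h4 : (y + 1 + 2 * q * (y - 1)) / (y + 1) ≤ y ^ q := by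
      rw [rpow_def_of_pos h0]
      refine le_trans ?_ (add_one_le_exp _)
      have := mul_le_mul_of_nonneg_right h3 hq.le
      refine le_trans (le_of_eq ?_) (add_le_add_left this 1)
      field_simp
      ring
    have h5 : 0 < y + 1 + 2 * q * (y - 1) := by nlinarith
    have h6 : 0 ≤ 1 - c * y⁻¹ := by
      rw [sub_nonneg, mul_inv_le_iff₀ h0]; linarith
    rw [rpow_neg h0.le]
    refine (mul_le_mul_of_nonneg_right (inv_anti₀ (by positivity) h4) h6).trans ?_
    rw [inv_div, div_mul_eq_mul_div, div_le_iff₀ h5]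
    refine le_of_mul_le_mul_right ?_ h0
    refine le_trans (le_of_eq ?_) ((hy y h).trans (le_of_eq (by ring)))
    field_simp
  have hP : ∀ ρ, 0 ≤ ρ → 0 ≤ 1 - c * ρ + g * ρ ^ 2 := fun ρ h0 => by
    rcases le_total ρ 1 with h | h
    · nlinarith [mul_nonneg hg (sq_nonneg ρ)]
    · refine le_trans (mul_nonneg (by positivity) ?_) (hy' ρ h)
      rw [sub_nonneg, mul_inv_le_iff₀ (by linarith)]; linarith
  have hpsi : ∀ ρ, 0 ≤ ρ → psi n q (sqrt ρ) ≤ ENNReal.ofReal (1 - c * ρ + g * ρ ^ 2) := fun ρ h0 => by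
    rcases le_total ρ 1 with h | h
    · refine (psi_tangent hq h1 h2 hc hc1 (sqrt_nonneg _) (sqrt_le_one.2 h)).trans
        (ENNReal.ofReal_le_ofReal ?_)
      rw [sq_sqrt h0]
      exact le_add_of_nonneg_right (by positivity)
    · have h3 : 1 ≤ sqrt ρ := one_le_sqrt.2 h
      rw [psi_inv q (by linarith)]
      refine (mul_le_mul_right (psi_tangent hq h1 h2 hc hc1 (by positivity)
        (inv_le_one_of_one_le₀ h3)) _).trans ?_
      rw [← ENNReal.ofReal_mul (by positivity), inv_pow, sq_sqrt h0]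
      exact ENNReal.ofReal_le_ofReal (hy' ρ h)
  have hm : (0 : ℝ) < 2 / (n + 2) := by positivity
  have hfin : ∀ x, 0 ≤ x → x < 1 →
      1 - c * x + g * ((1 + 2 / (n + 2)) * x ^ 2) < CC n q * (1 + x) ^ (-q) := fun x h0 hx1 => by
    have hx := hx1.le
    have h3 : 1 + q * ((1 - x) / 2) < ((1 + x) / 2) ^ (-q) := by
      rw [rpow_def_of_pos (by positivity)]
      have := log_lt_sub_one_of_pos (x := (1 + x) / 2) (by positivity) (by linarith)
      nlinarith [add_one_le_exp (log ((1 + x) / 2) * -q)]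
    have h4 : CC n q * (1 + x) ^ (-q) = CC n q * 2 ^ (-q) * ((1 + x) / 2) ^ (-q) := by
      rw [mul_assoc, ← mul_rpow zero_le_two (by positivity)]; congr 2; ring
    have h5 : 0 ≤ g * (1 + 2 / ((n : ℝ) + 2)) := by positivity
    have h6 : 0 ≤ q * ((1 - x) / 2) := mul_nonneg hq.le (by linarith)
    rw [h4]
    refine lt_of_le_of_lt ?_ (mul_lt_mul' hD h3 (by linarith) (lt_of_lt_of_le (by linarith) hD))
    have h7 : x ^ 2 ≤ 1 := pow_le_one₀ h0 hx
    nlinarith [mul_nonneg h5 h6, mul_nonneg h5 (sub_nonneg.2 h7),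
      mul_nonneg (sub_nonneg.2 hD2) (sub_nonneg.2 hx)]
  intro l _ hl
  match l with
  | [] =>
    rw [NN_one]
    exact ENNReal.one_lt_ofReal.2 (by simpa [ssq] using hfin 0 le_rfl zero_lt_one)
  | a :: l =>
    rw [NN_one_cons]
    have hC := CC_pos (n := n) (q := q) (by linarith)
    have h0 := ssq_nonneg (a :: l)
    refine (NN_mono hpsi _).trans_lt ((NN_quad hg hP _ a l rfl).trans_lt
      ((ENNReal.ofReal_lt_ofReal_iff (by positivity)).2
        (lt_of_le_of_lt ?_ (hfin _ (ssq_nonneg _) hl))))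
    have : 0 ≤ 2 / ((n : ℝ) + 2) * (a ^ 2) ^ 2 := by positivity
    nlinarith

lemma big_oneS (hq : 0 < q) (hq' : q < 1 / 2) (k : ℕ) : BigS 1 q k := by
  refine big_CS hq (by simpa using hq') (B0_of (D := P1 1 q) hq ?_ ?_) k
  · exact P1_le 1 q
  have hG := Gamma_pos_of_pos (s := 1 - q) (by linarith)
  have e : P1 1 q = exp (-(log 4 * q)) / (1 - q) := by
    rw [P1, show (((1 : ℕ) : ℝ) + 1) / 2 = 1 by norm_num, show ((1 : ℕ) : ℝ) + 1 = 2 by norm_num,
      show 2 - q = 1 - q + 1 by ring, Gamma_add_one (by linarith), Gamma_two, Gamma_one,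
      rpow_def_of_pos (by norm_num), mul_neg]
    have : 1 - q ≠ 0 := by linarith
    field_simp
  obtain ⟨c1, c2⟩ := log_three_half
  have h1 := exp_two_sub (x := log (3 / 2) * q) (by positivity)
  have h2 := log_one_sub_le hq.le (by linarith)
  have h4 : log 4 = 2 * log 2 := by
    rw [show (4 : ℝ) = 2 ^ 2 by norm_num, log_pow]; norm_num
  rw [e, div_mul_eq_mul_div, le_div_iff₀ (by linarith), one_mul]
  refine le_trans ?_ (mul_le_mul_of_nonneg_left h1 (exp_nonneg _))
  rw [← exp_add, ← log_le_iff_le_exp (by linarith), h4]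
  have h5 : log (3 / 2) ^ 2 ≤ 0.40549 ^ 2 := pow_le_pow_left₀ (by linarith) c2 2
  nlinarith [log_two_lt_d9, mul_le_mul_of_nonneg_right h5 (sq_nonneg q), pow_nonneg hq.le 3,
    mul_le_mul_of_nonneg_right c1 hq.le, mul_le_mul_of_nonneg_right log_two_lt_d9.le hq.le]

lemma big_twoS (hq : 0 < q) (hq' : q < 1) (k : ℕ) : BigS 2 q k := by
  have hD := CC_ge (n := 2) (q := q) q (by norm_num)
  rw [show (((2 : ℕ) : ℝ) + 2) / 4 = 1 by norm_num, show (((2 : ℕ) : ℝ) + 2) / 2 = 2 by norm_num,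
    Gamma_two, one_rpow, one_mul, div_one] at hD
  have hD' := (Gamma_two_sub hq.le hq'.le).trans hD
  obtain ⟨c1, c2⟩ := log_three_half
  rcases le_total q 0.13 with h | h
  · refine big_QS hq (by norm_num; linarith) (by norm_num; linarith) (c := q * (1 - q) / 2)
      (g := q * (0.046 - 0.05 * q)) (by norm_num) (by nlinarith)
      (mul_nonneg hq.le (by linarith)) (fun y hy => poly_two hq.le h hy) (le_trans ?_ hD')
      (by nlinarith [mul_pos hq hq, mul_pos hq (mul_pos hq hq)]) k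
    · have h2 := log_one_sub_le (y := q * (0.431 - 0.425 * q)) (mul_nonneg hq.le (by linarith))
        (by nlinarith)
      rw [show 1 - q * (1 - q) / 2 + q * (0.046 - 0.05 * q) * (1 + 2 / (((2 : ℕ) : ℝ) + 2)) =
        1 - q * (0.431 - 0.425 * q) by norm_num; ring, ← log_le_iff_le_exp (by nlinarith)]
      refine h2.trans (neg_le_neg ?_)
      have h3 : 0.375 ≤ 0.431 - 0.425 * q := by linarith
      have h4 : (q * 0.375) ^ 2 ≤ (q * (0.431 - 0.425 * q)) ^ 2 := by gcongr
      have h5 : 0 ≤ (q * (0.431 - 0.425 * q)) ^ 3 := by positivity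
      nlinarith [mul_le_mul_of_nonneg_left c2 hq.le, mul_nonneg hq.le (sub_nonneg.2 h)]
  · refine big_CS hq (by simpa using hq') (B0_of hq hD' ?_) k
    have h1 := exp_two_sub (x := log (3 / 2) * q) (by positivity)
    refine le_trans ?_ (mul_le_mul_of_nonneg_left h1 (exp_nonneg _))
    rw [← exp_add]
    refine one_le_exp ?_
    have h5 : log (3 / 2) ^ 2 ≤ 0.40549 ^ 2 := pow_le_pow_left₀ (by linarith) c2 2
    nlinarith [mul_le_mul_of_nonneg_right h5 (sq_nonneg q), mul_nonneg hq.le (sub_nonneg.2 h)]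

lemma big_threeS (hq : 1 / 2 < q) (hq' : q < 3 / 2) (k : ℕ) : BigS 3 q k := by
  obtain ⟨r, rfl⟩ : ∃ r, q = 1 / 2 + r := ⟨q - 1 / 2, by ring⟩
  have hr0 : 0 < r := by linarith
  have hr1 : r < 1 := by linarith
  obtain ⟨c1, c2⟩ := log_three_half
  have hD := CC_ge (n := 3) (q := 1 / 2 + r) r (by norm_num)
  have hD' : 0.841 * (1 - 0.201 * r + 0.31 * r ^ 2) ≤ CC 3 (1 / 2 + r) * 2 ^ (-(1 / 2 + r)) := by
    refine le_trans ?_ hD
    rw [show (((3 : ℕ) : ℝ) + 2) / 4 = 5 / 4 by norm_num,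
      show (((3 : ℕ) : ℝ) + 2) / 2 = 1 / 2 + 1 + 1 by norm_num, Gamma_add_one (by norm_num),
      Gamma_add_one (by norm_num), Gamma_one_half_eq, rpow_add (by norm_num), ← sqrt_eq_rpow,
      le_div_iff₀ (by positivity), rpow_def_of_pos (by norm_num)]
    have h1 : (1.118 : ℝ) ≤ sqrt (5 / 4) := le_sqrt_of_sq_le (by norm_num)
    have h2 : 0.2231 ≤ log (5 / 4) := by
      have h := abs_log_sub_add_sum_range_le (x := 1 / 5) (by norm_num [abs_of_pos]) 7
      have e : log (5 / 4) = -log (1 - 1 / 5) := by rw [← log_inv]; norm_num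
      norm_num [Finset.sum_range_succ, abs_le, abs_of_pos] at h
      norm_num at e
      rw [e]
      linarith [h.2]
    have h3 : 1 - 0.201 * r + 0.31 * r ^ 2 ≤ exp (log (5 / 4) * r) * Gamma (2 - r) := by
      refine le_trans ?_ (mul_le_mul_of_nonneg_left (Gamma_two_sub hr0.le hr1.le) (exp_nonneg _))
      rw [← exp_add]
      refine le_trans ?_ (add_one_le_exp _)
      nlinarith
    have h4 : 0 ≤ 1 - 0.201 * r + 0.31 * r ^ 2 := by nlinarith
    have h5 := mul_le_mul h1 h3 h4 (sqrt_nonneg _)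
    nlinarith [mul_le_mul_of_nonneg_left sqrt_pi_le h4]
  rcases le_total r 0.1 with h | h
  · refine big_QS (by linarith) (by norm_num; linarith) (by norm_num; linarith)
      (c := (1 / 2 + r) * (1 - r) * (2 / 5)) (g := 0.027) (by norm_num; ring) (by nlinarith)
      (by norm_num) (fun y hy => poly_three hr0.le h hy) (le_trans ?_ hD') (by nlinarith) k
    · norm_num
      nlinarith
  · refine big_CS (by linarith) (by norm_num; linarith) (B0_of (by linarith) hD' ?_) k
    have h1 : exp (-(log (3 / 2) * (1 / 2 + r))) ≤ 0.8166 * (1 - 0.4054 * r + 0.0822 * r ^ 2) := by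
      rw [mul_add, neg_add, exp_add]
      have h2 : exp (-(log (3 / 2) * (1 / 2))) ≤ 0.8166 := by
        refine (pow_le_pow_iff_left₀ (exp_nonneg _) (by norm_num) two_ne_zero).1 ?_
        rw [← exp_nat_mul, show ((2 : ℕ) : ℝ) * -(log (3 / 2) * (1 / 2)) = -log (3 / 2) by
          push_cast; ring, exp_neg, exp_log (by norm_num)]
        norm_num
      have h3 : exp (-(log (3 / 2) * r)) ≤ exp (-(0.4054 * r)) := exp_le_exp.2 (by nlinarith)
      have h4 := exp_neg_le (x := 0.4054 * r) (by positivity)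
      exact mul_le_mul h2 (by nlinarith) (exp_nonneg _) (by norm_num)
    have h4 : 0 ≤ 0.841 * (1 - 0.201 * r + 0.31 * r ^ 2) := by nlinarith
    refine le_trans ?_ (mul_le_mul_of_nonneg_left (sub_le_sub_left h1 2) h4)
    have h5 := mul_nonneg (sub_nonneg.2 h) (sub_nonneg.2 hr1.le)
    nlinarith [mul_nonneg h5 hr0.le, mul_nonneg h5 (sq_nonneg r), mul_nonneg (sub_nonneg.2 h) hr0.le]

lemma big_fourS (hq : 1 < q) (hq' : q < 2) (k : ℕ) : BigS 4 q k := by
  obtain ⟨r, rfl⟩ : ∃ r, q = 1 + r := ⟨q - 1, by ring⟩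
  have hr0 : 0 < r := by linarith
  have hr1 : r < 1 := by linarith
  obtain ⟨c1, c2⟩ := log_three_half
  have hD := CC_ge (n := 4) (q := 1 + r) r (by norm_num)
  have hD' : 3 / 4 * (1 - 0.0186 * r) ≤ CC 4 (1 + r) * 2 ^ (-(1 + r)) := by
    refine le_trans ?_ hD
    rw [show (((4 : ℕ) : ℝ) + 2) / 4 = 3 / 2 by norm_num,
      show (((4 : ℕ) : ℝ) + 2) / 2 = 2 + 1 by norm_num, Gamma_add_one (by norm_num),
      Gamma_two, rpow_add (by norm_num), rpow_one, rpow_def_of_pos (by norm_num)]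
    have h3 : 1 - 0.0186 * r ≤ exp (log (3 / 2) * r) * Gamma (2 - r) := by
      refine le_trans ?_ (mul_le_mul_of_nonneg_left (Gamma_two_sub hr0.le hr1.le) (exp_nonneg _))
      rw [← exp_add]
      refine le_trans ?_ (add_one_le_exp _)
      nlinarith
    nlinarith
  refine big_CS (by linarith) (by norm_num; linarith) (B0_of (by linarith) hD' ?_) k
  have h1 : exp (-(log (3 / 2) * (1 + r))) ≤ 2 / 3 * (1 - 0.3 * r) := by
    rw [mul_add, neg_add, exp_add, mul_one, exp_neg, exp_log (by norm_num)]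
    have h3 : exp (-(log (3 / 2) * r)) ≤ exp (-(0.4 * r)) := exp_le_exp.2 (by nlinarith)
    have h4 := exp_neg_le (x := 0.4 * r) (by positivity)
    nlinarith
  have h4 : 0 ≤ 3 / 4 * (1 - 0.0186 * r) := by nlinarith
  refine le_trans ?_ (mul_le_mul_of_nonneg_left (sub_le_sub_left h1 2) h4)
  nlinarith

lemma big_highS (hn : 5 ≤ n) (hq : (n : ℝ) / 2 - 1 < q) (hq' : q < n / 2) (k : ℕ) : BigS n q k := by
  obtain ⟨r, rfl⟩ : ∃ r, q = n / 2 - 1 + r := ⟨q - (n / 2 - 1), by ring⟩
  have hn' : (5 : ℝ) ≤ n := by exact_mod_cast hn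
  have hr0 : 0 < r := by linarith
  have hr1 : r < 1 := by linarith
  obtain ⟨c1, c2⟩ := log_three_half
  have hD := CC_ge (n := n) r rfl
  have hG := Gamma_pos_of_pos (s := ((n : ℝ) + 2) / 2) (by positivity)
  have hD' : AA (((n : ℝ) + 2) / 2) ≤ CC n (n / 2 - 1 + r) * 2 ^ (-(n / 2 - 1 + r)) := by
    refine le_trans ?_ hD
    rw [AA, rpow_add (by positivity), show ((n : ℝ) + 2) / 2 / 2 = (n + 2) / 4 by ring,
      show ((n : ℝ) + 2) / 2 - 2 = n / 2 - 1 by ring, mul_assoc]
    refine div_le_div_of_nonneg_right (le_mul_of_one_le_right (by positivity) ?_) hG.le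
    refine le_trans ?_ (mul_le_mul_of_nonneg_left (Gamma_two_sub hr0.le hr1.le) (by positivity))
    rw [rpow_def_of_pos (by positivity), ← exp_add]
    refine one_le_exp ?_
    have h1 : log (3 / 2) + 1 / 7 ≤ log (((n : ℝ) + 2) / 4) := by
      have h2 := one_sub_inv_le_log_of_pos (x := 7 / 6) (by norm_num)
      have h3 : log (3 / 2 * (7 / 6)) ≤ log (((n : ℝ) + 2) / 4) :=
        log_le_log (by norm_num) (by linarith)
      rw [log_mul (by norm_num) (by norm_num)] at h3
      linarith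
    nlinarith
  refine big_CS (by linarith) hq' (B0_of (by linarith) hD' ((AA_end hn).trans ?_)) k
  refine mul_le_mul_of_nonneg_left (sub_le_sub_left (exp_le_exp.2 (by nlinarith)) 2) ?_
  unfold AA
  positivity

theorem big_allS (hq : 0 < q) (hq' : q < ((n : ℝ) + 1) / 2) (k : ℕ) : BigS n q k := by
  rcases le_or_gt ((n : ℝ) / 2) q with h | h
  · exact big_BS hq hq' h k
  rcases le_or_gt (2 * q + 2) n with h2 | h2
  · exact big_AS hq h2 k
  rcases le_or_gt 5 n with hn | hn
  · exact big_highS hn (by linarith) h k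
  interval_cases n <;> push_cast at h h2
  · linarith
  · exact big_oneS hq (by linarith) k
  · exact big_twoS hq (by linarith) k
  · exact big_threeS (by linarith) (by linarith) k
  · exact big_fourS (by linarith) (by linarith) k

end Pool.Agent.Lib.MP_237b21_an.EQ
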