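import Pool.Agent.Lib.MP_237b21_an.EQ.BigS

/-! The extremisers of the negative-moment Khintchine inequality on spheres. -/

namespace Pool.Agent.Lib.MP_237b21_an.EQ

open Pool.Agent.Lib.MP_237b21_an
open MeasureTheory Set Real Filter
open scoped ENNReal Topology

variable {n : ℕ} {q : ℝ}

theorem reduce_lt (hq : 0 < q) (hq' : q < ((n : ℝ) + 1) / 2) (l : List ℝ) (hA : 0 < ssq l)
    {x : ℝ} (hx : x ∈ l) (hx0 : x ≠ 0) (hx1 : x ^ 2 ≠ ssq l / 2) :
    NN n (Fq q) l < ENNReal.ofReal (CC n q * ssq l ^ (-q)) := by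
  by_cases ha : ∀ a ∈ l, a ^ 2 ≤ ssq l / 2
  · exact small_lt hq hq' l hA ha hx hx0 (lt_of_le_of_ne (ha x hx) hx1)
  push Not at ha
  obtain ⟨a, hal, ha⟩ := ha
  have ha2 : 0 < a ^ 2 := by linarith
  have ha0 : a ≠ 0 := by rintro rfl; simp at ha2
  have hp := List.perm_cons_erase hal
  have e : a :: l.erase a = (1 :: (l.erase a).map (a⁻¹ * ·)).map (a * ·) := by
    simp [List.map_map, Function.comp_def, ha0]
  have hs := ssq_perm hp
  rw [ssq_cons] at hs
  have h1 := big_allS hq hq' _ ((l.erase a).map (a⁻¹ * ·)) rfl (by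
    rw [ssq_map, inv_pow, inv_mul_lt_iff₀ ha2]; linarith)
  rw [NN_perm hp, e, NN_scale (Fq_meas q)]
  simp only [Fq_mul ha2]
  rw [NN, lintegral_const_mul (f := fun y : V n => Fq q (‖y‖ ^ 2)) _ ((Fq_meas q).comp (by fun_prop))]
  refine (ENNReal.mul_lt_mul_right (by simpa using rpow_pos_of_pos ha2 (-q))
    ENNReal.ofReal_ne_top h1).trans_le (le_of_eq ?_)
  have := ssq_nonneg (l.erase a)
  rw [← ENNReal.ofReal_mul (by positivity), mul_left_comm, ssq_map,
    ← mul_rpow ha2.le (by positivity), hs]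
  congr 3
  field_simp

lemma NN_zero_cons {F : ℝ → ℝ≥0∞} (hF : Measurable F) (l : List ℝ) :
    NN n F (0 :: l) = NN n F l := by
  rw [NN_cons' hF, Mv, NN]
  simp

lemma NN_filter {F : ℝ → ℝ≥0∞} (hF : Measurable F) (l : List ℝ) : ∀ l' : List ℝ,
    NN n F (l' ++ l) = NN n F (l' ++ l.filter (· ≠ 0)) := by
  induction l with
  | nil => intro l'; rfl
  | cons a l ih =>
    intro l'
    rcases eq_or_ne a 0 with rfl | h
    · rw [NN_perm (List.perm_middle), NN_zero_cons hF, ih]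
      simp
    · rw [List.filter_cons_of_pos (by simpa using h), List.append_cons l' a l,
        List.append_cons l' a (l.filter _), ih]

lemma ssq_filter (l : List ℝ) : ssq (l.filter (· ≠ 0)) = ssq l := by
  induction l with
  | nil => rfl
  | cons a l ih =>
    rcases eq_or_ne a 0 with rfl | h
    · rw [List.filter_cons_of_neg (by simp), ssq_cons, ih]; ring
    · rw [List.filter_cons_of_pos (by simpa using h), ssq_cons, ssq_cons, ih]

lemma ssq_const {c : ℝ} (l : List ℝ) (h : ∀ x ∈ l, x ^ 2 = c) : ssq l = l.length * c := by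
  induction l with
  | nil => simp [ssq]
  | cons a l ih =>
    rw [ssq_cons, ih fun x hx => h x (List.mem_cons_of_mem _ hx), h a List.mem_cons_self,
      List.length_cons]
    push_cast; ring

theorem NN_two (hq' : q < ((n : ℝ) + 1) / 2) (l : List ℝ) (hA : 0 < ssq l)
    (h : ∀ x ∈ l, x ≠ 0 → x ^ 2 = ssq l / 2) :
    NN n (Fq q) l = ENNReal.ofReal (2 ^ q * P1 n q * ssq l ^ (-q)) := by
  have h1 := NN_filter (n := n) (Fq_meas q) l []
  simp only [List.nil_append] at h1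
  have h2 : ∀ x ∈ l.filter (· ≠ 0), x ^ 2 = ssq l / 2 := fun x hx => by
    rw [List.mem_filter] at hx
    exact h x hx.1 (by simpa using hx.2)
  have h3 := ssq_const _ h2
  rw [ssq_filter] at h3
  have h4 : (l.filter (· ≠ 0)).length = 2 := by
    have : ((l.filter (· ≠ 0)).length : ℝ) = 2 := by
      refine mul_right_cancel₀ (b := ssq l / 2) (by positivity) ?_
      rw [← h3]; ring
    exact_mod_cast this
  obtain ⟨x, y, hxy⟩ := List.length_eq_two.1 h4
  rw [hxy] at h1 h2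
  have hx := h2 x (by simp)
  have hy := h2 y (by simp)
  have hc : 0 < ssq l / 2 := by positivity
  have hxa : |x| = sqrt (ssq l / 2) := by rw [← hx, sqrt_sq_eq_abs]
  have hya : |y| = sqrt (ssq l / 2) := by rw [← hy, sqrt_sq_eq_abs]
  have h5 : NN n (Fq q) [x, y] = NN n (Fq q) ([1, 1].map (sqrt (ssq l / 2) * ·)) := by
    rw [← NN_abs (Fq_meas q), NN_perm (List.Perm.swap y |x| []), ← NN_abs (Fq_meas q) y, hxa, hya]
    simp
  rw [h1, h5, NN_scale (Fq_meas q), sq_sqrt hc.le]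
  simp only [Fq_mul hc]
  rw [NN, lintegral_const_mul (f := fun y : V n => Fq q (‖y‖ ^ 2)) _
    ((Fq_meas q).comp (by fun_prop)), ← NN, NN_pair, abs_one, psi_one hq',
    ← ENNReal.ofReal_mul (by positivity), div_rpow hA.le zero_le_two, rpow_neg zero_le_two]
  congr 1
  field_simp

theorem list_iff (hq : 0 < q) (hq' : q < ((n : ℝ) + 1) / 2) (l : List ℝ) (hA : 0 < ssq l) :
    NN n (Fq q) l = ENNReal.ofReal (CC n q * ssq l ^ (-q)) ↔
      CI n q ≤ 2 ^ q * P1 n q ∧ ∀ x ∈ l, x ≠ 0 → x ^ 2 = ssq l / 2 := by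
  have hP := P1_pos hq'
  have hC := CC_pos hq'
  have hs : 0 < ssq l ^ (-q) := by positivity
  by_cases h : ∀ x ∈ l, x ≠ 0 → x ^ 2 = ssq l / 2
  · rw [NN_two hq' l hA h, ENNReal.ofReal_eq_ofReal_iff (by positivity) (by positivity),
      mul_left_inj' hs.ne', CC, eq_comm, max_eq_left_iff]
    exact ⟨fun h1 => ⟨h1, h⟩, fun h1 => h1.1⟩
  · refine ⟨fun h1 => ?_, fun h1 => absurd h1.2 h⟩
    push Not at h
    obtain ⟨x, hx, hx0, hx1⟩ := h
    exact absurd h1 (reduce_lt hq hq' l hA hx hx0 hx1).ne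

lemma two_iff {k : ℕ} (a : Fin k → ℝ) (ha : a ≠ 0) :
    (∀ i, a i ≠ 0 → a i ^ 2 = (∑ j, a j ^ 2) / 2) ↔
      ∃ i j, i ≠ j ∧ |a i| = |a j| ∧ ∀ k, k ≠ i → k ≠ j → a k = 0 := by
  classical
  have hsum : ∀ i j, i ≠ j → ∑ k, a k ^ 2 =
      a i ^ 2 + a j ^ 2 + ∑ k ∈ (Finset.univ.erase i).erase j, a k ^ 2 := fun i j hij => by
    rw [← Finset.add_sum_erase _ _ (Finset.mem_univ i), ← Finset.add_sum_erase _ _
      (Finset.mem_erase.2 ⟨hij.symm, Finset.mem_univ j⟩), add_assoc]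
  constructor
  · intro h
    obtain ⟨i, hi⟩ := Function.ne_iff.1 ha
    have hi : a i ≠ 0 := hi
    have hi2 : 0 < a i ^ 2 := by positivity
    obtain ⟨j, hji, hj⟩ : ∃ j, j ≠ i ∧ a j ≠ 0 := by
      by_contra hcon
      push Not at hcon
      have h1 : ∑ j, a j ^ 2 = a i ^ 2 :=
        Finset.sum_eq_single i (fun j _ hj => by rw [hcon j hj]; ring) (by simp)
      have := h i hi
      linarith
    refine ⟨i, j, hji.symm, ?_, fun k hki hkj => ?_⟩
    · rw [← sq_eq_sq_iff_abs_eq_abs, h i hi, h j hj]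
    · have h1 := hsum i j hji.symm
      have h2 : a k ^ 2 ≤ ∑ k ∈ (Finset.univ.erase i).erase j, a k ^ 2 :=
        Finset.single_le_sum (f := fun k => a k ^ 2) (fun _ _ => sq_nonneg _)
          (Finset.mem_erase.2 ⟨hkj, Finset.mem_erase.2 ⟨hki, Finset.mem_univ k⟩⟩)
      have h3 := h i hi
      have h4 := h j hj
      exact pow_eq_zero_iff (two_ne_zero) |>.1 (le_antisymm (by linarith) (sq_nonneg _))
  · rintro ⟨i, j, hij, h1, h2⟩ k hk
    have h3 := hsum i j hij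
    rw [Finset.sum_eq_zero (s := (Finset.univ.erase i).erase j) fun k hk => by
      rw [Finset.mem_erase, Finset.mem_erase] at hk
      rw [h2 k hk.2.1 hk.1]; ring] at h3
    have h4 := (sq_eq_sq_iff_abs_eq_abs _ _).2 h1
    by_cases hki : k = i
    · rw [hki]; linarith
    by_cases hkj : k = j
    · rw [hkj]; linarith
    exact absurd (h2 k hki hkj) hk

theorem main (m : ℕ) (hm : 2 ≤ m) (p : ℝ) (hp : -(m : ℝ) + 1 < p) (hp0 : p < 0)
    (k : ℕ) (a : Fin k → ℝ) (ha : a ≠ 0) :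
    (mom m k p a) ^ (1 / p) / ENNReal.ofReal (Real.sqrt (∑ j, a j ^ 2)) = best m p ↔
      cTwo m p ≤ cInf m p ∧ ∃ i j, i ≠ j ∧ |a i| = |a j| ∧ ∀ k, k ≠ i → k ≠ j → a k = 0 := by
  obtain ⟨n, rfl⟩ : ∃ n, m = n + 2 := ⟨m - 2, by omega⟩
  obtain ⟨q, rfl⟩ : ∃ q, p = -(2 * q) := ⟨-p / 2, by ring⟩
  push_cast at hp
  have hq : 0 < q := by linarith
  have hq' : q < ((n : ℝ) + 1) / 2 := by linarith
  have hp' : 1 / -(2 * q) < 0 := one_div_neg.2 hp0
  have h1 : cTwo (n + 2) (-(2 * q)) = (2 ^ q * P1 n q) ^ (1 / -(2 * q)) := by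
    rw [cTwo, P1, show (4 : ℝ) = 2 ^ (2 : ℝ) by norm_num, ← rpow_mul zero_le_two, ← mul_assoc,
      ← rpow_add two_pos]
    push_cast
    rw [show ((n : ℝ) + 2 - 1 + -(2 * q)) / 2 = (n + 1) / 2 - q by ring,
      show (n : ℝ) + 2 - 1 + -(2 * q) / 2 = n + 1 - q by ring, show (n : ℝ) + 2 - 1 = n + 1 by ring,
      show -(2 * q) / 2 = q + 2 * -q by ring]
    congr 1
    ring
  have h2 : cInf (n + 2) (-(2 * q)) = CI n q ^ (1 / -(2 * q)) := by
    rw [cInf, CI]
    push_cast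
    rw [show ((n : ℝ) + 2 + -(2 * q)) / 2 = (n + 2) / 2 - q by ring, show - -(2 * q) / 2 = q by ring]
  have k1 : 0 < 2 ^ q * P1 n q := mul_pos (by positivity) (P1_pos hq')
  have k2 : 0 < CI n q := by
    have := Gamma_pos_of_pos (s := ((n : ℝ) + 2) / 2) (by positivity)
    have := Gamma_pos_of_pos (s := ((n : ℝ) + 2) / 2 - q) (by linarith)
    unfold CI; positivity
  have hA : 0 < ∑ j, a j ^ 2 := by
    obtain ⟨j, hj⟩ := Function.ne_iff.1 ha
    exact Finset.sum_pos' (fun i _ => sq_nonneg _) ⟨j, Finset.mem_univ j, by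
      have : a j ≠ 0 := hj
      positivity⟩
  have hl := list_iff hq hq' (List.ofFn a) (by rw [ssq_ofFn]; exact hA)
  rw [ssq_ofFn, List.forall_mem_ofFn_iff, two_iff a ha] at hl
  rw [h1, h2, rpow_le_rpow_iff_of_neg k1 k2 hp', ← hl, best_eq n hq hq', mom_eq, ratio_eq _ hA hq,
    (ENNReal.rpow_left_injective hp'.ne).eq_iff]
  have hC := CC_pos hq'
  have e : ENNReal.ofReal (CC n q) = ENNReal.ofReal (CC n q * (∑ j, a j ^ 2) ^ (-q)) *
      ENNReal.ofReal ((∑ j, a j ^ 2) ^ q) := by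
    rw [← ENNReal.ofReal_mul (by positivity), mul_assoc, ← rpow_add hA]
    simp
  rw [e, ENNReal.mul_left_inj (by simpa using rpow_pos_of_pos hA q) ENNReal.ofReal_ne_top]

end Pool.Agent.Lib.MP_237b21_an.EQ
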