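import Pool.Agent.Lib.MP_237b21_an.Main

/-! Strict forms of the small-coefficient bound. -/

namespace Pool.Agent.Lib.MP_237b21_an.EQ

open Pool.Agent.Lib.MP_237b21_an
open MeasureTheory Set Real Filter
open scoped ENNReal Topology

lemma pointwise_lt {L a x s : ℝ} (hs : 2 < s) (hx : 0 ≤ x) (h : x ≤ exp (-L)) (ha : L < a) :
    exp ((s - 2) * L) * x ^ s + (1 + (s - 2) * L) * exp (-(2 * a)) <
      exp ((s - 2) * L) * exp (-(s * a)) + x ^ (2 : ℝ) +
        (s - 2) * (phi L x + a * exp (-(2 * a))) := by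
  have hu : 0 < s - 2 := by linarith
  have hg : exp ((s - 2) * L) * exp (-(s * a)) = exp (-(2 * a)) * exp ((s - 2) * (L - a)) := by
    rw [← exp_add, ← exp_add]; congr 1; ring
  have hg1 := add_one_lt_exp (x := (s - 2) * (L - a))
    (mul_neg_of_pos_of_neg hu (by linarith)).ne
  have hE : 0 < exp (-(2 * a)) := exp_pos _
  have hphi := mul_nonneg hu.le (phi_nonneg L x)
  have h1 : exp ((s - 2) * L) * x ^ s ≤ x ^ (2 : ℝ) := by
    rcases hx.eq_or_lt with rfl | hx
    · rw [zero_rpow (by linarith), zero_rpow two_ne_zero, mul_zero]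
    have hxs : exp ((s - 2) * L) * x ^ s = x ^ 2 * exp ((s - 2) * (L + log x)) := by
      rw [show s = (s - 2) + 2 by ring, rpow_add hx, rpow_two, rpow_def_of_pos hx, ← mul_assoc,
        ← exp_add, mul_comm]
      congr 2; ring
    have h0 : L + log x ≤ 0 := by
      have := log_le_log hx h
      rw [log_exp] at this; linarith
    rw [hxs, rpow_two]
    exact mul_le_of_le_one_right (by positivity)
      (exp_le_one_iff.2 (mul_nonpos_of_nonneg_of_nonpos hu.le h0))
  rw [hg]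
  nlinarith [mul_lt_mul_of_pos_left hg1 hE]

lemma mw_Ioi (p T : ℝ) : mw p (Ioi T) ≠ 0 := by
  intro h
  have hac : (volume.restrict (Ioi (0 : ℝ))) ≪ mw p := by
    refine withDensity_absolutelyContinuous' (by fun_prop) ?_
    refine ae_restrict_of_forall_mem measurableSet_Ioi fun t ht => ?_
    have : (0 : ℝ) < t := ht
    simpa using rpow_pos_of_pos this (p - 1)
  have h2 := hac h
  rw [Measure.restrict_apply measurableSet_Ioi, Ioi_inter_Ioi, volume_Ioi] at h2
  exact ENNReal.top_ne_zero h2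

theorem crit_lt {n : ℕ} {L : ℝ} (h : Crit n L) {q : ℝ} (hq : 0 < q)
    (hq' : q ≤ ((n : ℝ) + 1) / 2) {M : ℝ} (hM : K0 n q ≤ M) (hM2 : II n q 2 ≤ ENNReal.ofReal M)
    {s : ℝ} (hs : 2 < s) : II n q s < ENNReal.ofReal ((s / 2) ^ (-q)) * ENNReal.ofReal M := by
  have h1 := crit_q h hq hq'
  have hle := crit_main h hq hq' hM hM2 hs.le
  obtain ⟨hL, ha, -⟩ := h
  have hc := (continuous_jn n).measurable
  have hp := phi_meas L
  have hn : (0 : ℝ) < n + 2 := by positivity
  have hL0 : 0 < L := lt_of_lt_of_le (by positivity) hL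
  have hK := K0_pos n hq
  have hG := Gamma_pos_of_pos hq
  have hM0 : 0 < M := hK.trans_le hM
  have hu : 0 ≤ s - 2 := by linarith
  obtain ⟨b, hb, hbM, hbn⟩ : ∃ b : ℝ, 0 < b ∧ b ^ (-q) * (1 / 2) * Gamma q = M ∧
      b ≤ 1 / ((n : ℝ) + 2) := by
    have e : ((2 * M / Gamma q) ^ (-q⁻¹)) ^ (-q) = 2 * M / Gamma q := by
      rw [← rpow_mul (by positivity), show -q⁻¹ * -q = 1 by field_simp, rpow_one]
    refine ⟨(2 * M / Gamma q) ^ (-q⁻¹), by positivity, by rw [e]; field_simp, ?_⟩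
    rw [← rpow_le_rpow_iff_of_neg (by positivity) (by positivity) (neg_lt_zero.2 hq), e,
      le_div_iff₀ hG]
    rw [K0_eq] at hM
    linarith
  have hE : 0 < exp ((s - 2) * L) := exp_pos _
  have hfin : ENNReal.ofReal (exp ((s - 2) * L)) * II n q s +
      ENNReal.ofReal ((1 + (s - 2) * L) * M) ≠ ⊤ :=
    ENNReal.add_ne_top.2 ⟨ENNReal.mul_ne_top ENNReal.ofReal_ne_top (ne_top_of_le_ne_top
      (ENNReal.mul_ne_top ENNReal.ofReal_ne_top ENNReal.ofReal_ne_top) hle), ENNReal.ofReal_ne_top⟩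
  have key : ENNReal.ofReal (exp ((s - 2) * L)) * II n q s +
      ENNReal.ofReal ((1 + (s - 2) * L) * M) <
      ENNReal.ofReal (exp ((s - 2) * L)) * (ENNReal.ofReal ((s / 2) ^ (-q)) * ENNReal.ofReal M) +
      II n q 2 + ENNReal.ofReal (s - 2) * (∫⁻ t, ENNReal.ofReal (phi L |jn n t|) ∂mw (2 * q) +
        ENNReal.ofReal (q / 2 * M)) := by
    have e1 : ENNReal.ofReal ((s / 2) ^ (-q)) * ENNReal.ofReal M =
        ∫⁻ t, ENNReal.ofReal (exp (-(s / 2 * b * t ^ 2))) ∂mw (2 * q) := by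
      rw [mw_gauss (by positivity) hq, ← ENNReal.ofReal_mul (by positivity), ← hbM,
        mul_rpow (by positivity) hb.le]
      congr 1; ring
    have eL : ENNReal.ofReal (exp ((s - 2) * L)) * II n q s +
        ENNReal.ofReal ((1 + (s - 2) * L) * M) =
        ∫⁻ t, (ENNReal.ofReal (exp ((s - 2) * L)) * ENNReal.ofReal (|jn n t| ^ s) +
          ENNReal.ofReal (1 + (s - 2) * L) * ENNReal.ofReal (exp (-(b * t ^ 2)))) ∂mw (2 * q) := by
      rw [← hbM, ENNReal.ofReal_mul (by positivity), ← mw_gauss hb hq, II,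
        ← lintegral_const_mul _ (by fun_prop), ← lintegral_const_mul _ (by fun_prop),
        ← lintegral_add_left (by fun_prop)]
    have eR : ENNReal.ofReal (exp ((s - 2) * L)) *
        (ENNReal.ofReal ((s / 2) ^ (-q)) * ENNReal.ofReal M) +
        II n q 2 + ENNReal.ofReal (s - 2) * (∫⁻ t, ENNReal.ofReal (phi L |jn n t|) ∂mw (2 * q) +
          ENNReal.ofReal (q / 2 * M)) =
        ∫⁻ t, (ENNReal.ofReal (exp ((s - 2) * L)) * ENNReal.ofReal (exp (-(s / 2 * b * t ^ 2))) +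
          ENNReal.ofReal (|jn n t| ^ (2 : ℝ)) + ENNReal.ofReal (s - 2) *
            (ENNReal.ofReal (phi L |jn n t|) +
              ENNReal.ofReal (b / 2 * t ^ 2 * exp (-(b * t ^ 2))))) ∂mw (2 * q) := by
      rw [e1, ← hbM, ← mw_gauss2 hb hq, II, ← lintegral_const_mul _ (by fun_prop),
        ← lintegral_add_left (by fun_prop), ← lintegral_add_left (by fun_prop),
        ← lintegral_const_mul _ (by fun_prop), ← lintegral_add_left (by fun_prop)]
    rw [eL] at hfin
    rw [eL, eR]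
    have h2 : ∀ t, 0 < t → |jn n t| ≤ max (exp (-(b / 2 * t ^ 2))) (exp (-L)) := fun t ht => by
      refine (ha t ht).trans (max_le_max (exp_le_exp.2 ?_) le_rfl)
      have : t ^ 2 / (2 * (n + 2)) = 1 / ((n : ℝ) + 2) / 2 * t ^ 2 := by field_simp
      rw [this]
      gcongr
    refine lintegral_strict_mono_of_ae_le_of_ae_lt_on (by fun_prop) hfin ?_
      (mw_Ioi (2 * q) (sqrt (2 * L / b))) ?_
    · filter_upwards [mw_pos (2 * q)] with t ht
      have h0 := phi_nonneg L |jn n t|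
      rw [← ENNReal.ofReal_add h0 (by positivity)]
      repeat rw [← ENNReal.ofReal_mul (by positivity)]
      repeat rw [← ENNReal.ofReal_add (by positivity) (by positivity)]
      refine ENNReal.ofReal_le_ofReal ?_
      have h3 := pointwise hs.le (abs_nonneg _) (h2 t ht)
      rwa [show 2 * (b / 2 * t ^ 2) = b * t ^ 2 by ring,
        show s * (b / 2 * t ^ 2) = s / 2 * b * t ^ 2 by ring] at h3
    · filter_upwards [mw_pos (2 * q)] with t ht htT
      have h0 := phi_nonneg L |jn n t|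
      have h4 : L < b / 2 * t ^ 2 := by
        have := (sqrt_lt' ht).1 htT
        rw [div_lt_iff₀ hb] at this
        linarith
      rw [← ENNReal.ofReal_add h0 (by positivity)]
      repeat rw [← ENNReal.ofReal_mul (by positivity)]
      repeat rw [← ENNReal.ofReal_add (by positivity) (by positivity)]
      refine (ENNReal.ofReal_lt_ofReal_iff_of_nonneg (by positivity)).2 ?_
      have h5 := h2 t ht
      rw [max_eq_right (exp_le_exp.2 (by linarith))] at h5
      have h3 := pointwise_lt hs (abs_nonneg _) h5 h4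
      rwa [show 2 * (b / 2 * t ^ 2) = b * t ^ 2 by ring,
        show s * (b / 2 * t ^ 2) = s / 2 * b * t ^ 2 by ring] at h3
  have hLq : 0 ≤ L - q / 2 := by linarith
  have h2 : II n q 2 + ENNReal.ofReal (s - 2) *
      (∫⁻ t, ENNReal.ofReal (phi L |jn n t|) ∂mw (2 * q) + ENNReal.ofReal (q / 2 * M)) ≤
      ENNReal.ofReal ((1 + (s - 2) * L) * M) := by
    have h3 : ENNReal.ofReal ((1 + (s - 2) * L) * M) = ENNReal.ofReal M + ENNReal.ofReal (s - 2) *
        (ENNReal.ofReal (M * (L - q / 2)) + ENNReal.ofReal (q / 2 * M)) := by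
      rw [← ENNReal.ofReal_add (by positivity) (by positivity), ← ENNReal.ofReal_mul hu,
        ← ENNReal.ofReal_add (by positivity) (by positivity)]
      congr 1; ring
    rw [h3]
    gcongr
    exact h1.trans (ENNReal.ofReal_le_ofReal (by gcongr))
  rw [add_assoc] at key
  have h4 := (ENNReal.add_lt_add_iff_right ENNReal.ofReal_ne_top).1
    (key.trans_le (add_le_add_right h2 _))
  exact lt_of_mul_lt_mul_left' h4

lemma holder_fn_lt (n : ℕ) {q : ℝ} {M : ℝ} (hM0 : 0 < M)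
    (hM : ∀ s, 2 ≤ s → II n q s ≤ ENNReal.ofReal ((s / 2) ^ (-q)) * ENNReal.ofReal M)
    (hM' : ∀ s, 2 < s → II n q s < ENNReal.ofReal ((s / 2) ^ (-q)) * ENNReal.ofReal M)
    {k : ℕ} (a : Fin k → ℝ) {A : ℝ} (hA : ∑ i, a i ^ 2 = A) (hA0 : 0 < A)
    (ha : ∀ i, a i ^ 2 ≤ A / 2) (i₀ : Fin k) (hi0 : a i₀ ≠ 0) (hi1 : a i₀ ^ 2 < A / 2) :
    IP n q (List.ofFn a) < ENNReal.ofReal ((A / 2) ^ (-q)) * ENNReal.ofReal M := by
  classical
  have hc := (continuous_jn n).measurable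
  have hp : ∑ i, a i ^ 2 / A = 1 := by rw [← Finset.sum_div, hA, div_self hA0.ne']
  have h := ENNReal.lintegral_prod_norm_pow_le (μ := mw (2 * q)) Finset.univ
    (f := fun i t => ENNReal.ofReal (|jn n (|a i| * t)| ^ (A / a i ^ 2)))
    (fun i _ => by fun_prop) hp (fun i _ => by positivity)
  have h1 : IP n q (List.ofFn a) = ∫⁻ t, ∏ i, ENNReal.ofReal
      (|jn n (|a i| * t)| ^ (A / a i ^ 2)) ^ (a i ^ 2 / A) ∂mw (2 * q) := by
    refine lintegral_congr fun t => ?_
    rw [PJ, List.map_ofFn, List.prod_ofFn, Finset.abs_prod,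
      ENNReal.ofReal_prod_of_nonneg fun _ _ => abs_nonneg _]
    refine Finset.prod_congr rfl fun i _ => ?_
    rcases eq_or_ne (a i) 0 with h0 | h0
    · simp [h0, jn_zero]
    · have : 0 < a i ^ 2 := by positivity
      rw [ENNReal.ofReal_rpow_of_nonneg (by positivity) (by positivity), ← rpow_mul (abs_nonneg _),
        show A / a i ^ 2 * (a i ^ 2 / A) = 1 by field_simp, rpow_one, Function.comp,
        ← jn_abs n (a i * t), ← jn_abs n (|a i| * t), abs_mul, abs_mul, abs_abs]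
  rw [h1]
  refine h.trans_lt ?_
  obtain ⟨B, hB⟩ : ∃ B, B = ENNReal.ofReal ((A / 2) ^ (-q)) * ENNReal.ofReal M := ⟨_, rfl⟩
  have hB0 : B ≠ 0 := by
    rw [hB, ← ENNReal.ofReal_mul (by positivity)]
    have : 0 < (A / 2) ^ (-q) * M := by positivity
    simpa using this
  have hBt : B ≠ ⊤ := by
    rw [hB]; exact ENNReal.mul_ne_top ENNReal.ofReal_ne_top ENNReal.ofReal_ne_top
  have h2 : B = ∏ i, B ^ (a i ^ 2 / A) := by
    rw [← ennreal_rpow_sum _ _ _ fun i => by positivity, hp, ENNReal.rpow_one]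
  have hsc : ∀ i, a i ≠ 0 → ∫⁻ t, ENNReal.ofReal (|jn n (|a i| * t)| ^ (A / a i ^ 2)) ∂mw (2 * q) =
      ENNReal.ofReal (|a i| ^ (-(2 * q))) * II n q (A / a i ^ 2) := fun i h0 =>
    mw_scale (2 * q) (abs_pos.2 h0) (f := fun t => ENNReal.ofReal (|jn n t| ^ (A / a i ^ 2)))
      (by fun_prop)
  have hBe : ∀ i, a i ≠ 0 → ENNReal.ofReal (|a i| ^ (-(2 * q))) *
      (ENNReal.ofReal ((A / a i ^ 2 / 2) ^ (-q)) * ENNReal.ofReal M) = B := fun i h0 => by
    have hi : 0 < a i ^ 2 := by positivity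
    rw [hB, ← mul_assoc, ← ENNReal.ofReal_mul (by positivity)]
    congr 2
    rw [show -(2 * q) = ((2 : ℕ) : ℝ) * (-q) by push_cast; ring, rpow_mul (abs_nonneg _),
      rpow_natCast, sq_abs, ← mul_rpow hi.le (by positivity)]
    congr 1
    field_simp
  have hle : ∀ i, (∫⁻ t, ENNReal.ofReal (|jn n (|a i| * t)| ^ (A / a i ^ 2)) ∂mw (2 * q)) ^
      (a i ^ 2 / A) ≤ B ^ (a i ^ 2 / A) := fun i => by
    rcases eq_or_ne (a i) 0 with h0 | h0
    · simp [h0]
    have hi : 0 < a i ^ 2 := by positivity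
    refine ENNReal.rpow_le_rpow ?_ (by positivity)
    rw [hsc i h0, ← hBe i h0]
    exact mul_le_mul_right (hM _ (by rw [le_div_iff₀ hi]; linarith [ha i])) _
  have hlt : (∫⁻ t, ENNReal.ofReal (|jn n (|a i₀| * t)| ^ (A / a i₀ ^ 2)) ∂mw (2 * q)) ^
      (a i₀ ^ 2 / A) < B ^ (a i₀ ^ 2 / A) := by
    have hi : 0 < a i₀ ^ 2 := by positivity
    refine ENNReal.rpow_lt_rpow ?_ (by positivity)
    rw [hsc i₀ hi0, ← hBe i₀ hi0]
    refine ENNReal.mul_lt_mul_right ?_ ENNReal.ofReal_ne_top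
      (hM' _ (by rw [lt_div_iff₀ hi]; linarith))
    simpa using rpow_pos_of_pos (abs_pos.2 hi0) _
  rw [← hB, h2, ← Finset.mul_prod_erase _ _ (Finset.mem_univ i₀),
    ← Finset.mul_prod_erase _ (fun i => B ^ (a i ^ 2 / A)) (Finset.mem_univ i₀)]
  refine (mul_le_mul_right (Finset.prod_le_prod' fun i _ => hle i) _).trans_lt ?_
  refine ENNReal.mul_lt_mul_left ?_ ?_ hlt
  · exact Finset.prod_ne_zero_iff.2 fun i _ => by
      simp [ENNReal.rpow_eq_zero_iff, hB0, hBt]
  · exact ENNReal.prod_ne_top fun i _ => ENNReal.rpow_ne_top_of_nonneg (by positivity) hBt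

theorem holder_lt (n : ℕ) {q : ℝ} {M : ℝ} (hM0 : 0 < M)
    (hM : ∀ s, 2 ≤ s → II n q s ≤ ENNReal.ofReal ((s / 2) ^ (-q)) * ENNReal.ofReal M)
    (hM' : ∀ s, 2 < s → II n q s < ENNReal.ofReal ((s / 2) ^ (-q)) * ENNReal.ofReal M)
    (l : List ℝ) (hA0 : 0 < ssq l) (ha : ∀ a ∈ l, a ^ 2 ≤ ssq l / 2)
    {x : ℝ} (hx : x ∈ l) (hx0 : x ≠ 0) (hx1 : x ^ 2 < ssq l / 2) :
    IP n q l < ENNReal.ofReal ((ssq l / 2) ^ (-q)) * ENNReal.ofReal M := by
  obtain ⟨i, rfl⟩ := List.mem_iff_get.1 hx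
  have := holder_fn_lt n hM0 hM hM' l.get (A := ssq l) (by
    rw [ssq]
    conv_rhs => rw [← List.ofFn_get l, List.map_ofFn, List.sum_ofFn]
    rfl) hA0 (fun i => ha _ (List.get_mem l i)) i hx0 hx1
  rwa [List.ofFn_get] at this

theorem small_lt {n : ℕ} {q : ℝ} (hq : 0 < q) (hq' : q < ((n : ℝ) + 1) / 2) (l : List ℝ)
    (hA0 : 0 < ssq l) (ha : ∀ a ∈ l, a ^ 2 ≤ ssq l / 2)
    {x : ℝ} (hx : x ∈ l) (hx0 : x ≠ 0) (hx1 : x ^ 2 < ssq l / 2) :
    NN n (Fq q) l < ENNReal.ofReal (CC n q * ssq l ^ (-q)) := by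
  obtain ⟨L, hL⟩ := crit_all n
  have k1 := kap_pos hq
  have k2 := kap_pos (s := ((n : ℝ) + 2) / 2) (by positivity)
  have k3 := kap_pos (s := ((n : ℝ) + 2) / 2 - q) (by linarith)
  have h2 : (0 : ℝ) < 2 ^ q := by positivity
  have hC := CC_pos hq'
  obtain ⟨M, hM⟩ : ∃ M, M = kap q * kap (((n : ℝ) + 2) / 2) * CC n q /
    (kap (((n : ℝ) + 2) / 2 - q) * 2 ^ q) := ⟨_, rfl⟩
  have hM0 : 0 < M := by rw [hM]; positivity
  have hK : K0 n q ≤ M := by
    rw [hM, le_div_iff₀' (by positivity), mul_assoc, K0_CI hq]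
    exact mul_le_mul_of_nonneg_left (le_max_right _ _) (by positivity)
  have hI : II n q 2 ≤ ENNReal.ofReal M := by
    have := fourier_eq n hq (by linarith) [1, 1] fun t => by simpa [PJ] using mul_self_nonneg _
    rw [IP_pair, NN_pair, abs_one, psi_one hq', ← ENNReal.ofReal_mul (by positivity)] at this
    rw [← ENNReal.mul_le_mul_iff_right (a := ENNReal.ofReal (kap (((n : ℝ) + 2) / 2 - q)))
      (by simpa using k3) ENNReal.ofReal_ne_top, ← this, ← ENNReal.ofReal_mul k3.le]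
    refine ENNReal.ofReal_le_ofReal ?_
    have e : kap (((n : ℝ) + 2) / 2 - q) * M =
        kap q * kap (((n : ℝ) + 2) / 2) * (CC n q / 2 ^ q) := by
      rw [hM]
      generalize kap (((n : ℝ) + 2) / 2 - q) = K at k3
      field_simp
    rw [e]
    refine mul_le_mul_of_nonneg_left ?_ (by positivity)
    rw [le_div_iff₀' h2]
    exact le_max_left _ _
  have h := (fourier_le n hq (by linarith) l).trans_lt (ENNReal.mul_lt_mul_right
    (by simpa using k3) ENNReal.ofReal_ne_top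
    (holder_lt n hM0 (fun s hs => crit_main hL hq hq'.le hK hI hs)
      (fun s hs => crit_lt hL hq hq'.le hK hI hs) l hA0 ha hx hx0 hx1))
  refine lt_of_mul_lt_mul_left' (a := ENNReal.ofReal (kap q * kap (((n : ℝ) + 2) / 2))) ?_
  refine h.trans_le (le_of_eq ?_)
  rw [← ENNReal.ofReal_mul (by positivity), ← ENNReal.ofReal_mul (by positivity),
    ← ENNReal.ofReal_mul (by positivity), hM, div_rpow hA0.le zero_le_two, rpow_neg zero_le_two]
  congr 1
  generalize kap (((n : ℝ) + 2) / 2 - q) = K at k3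
  field_simp

end Pool.Agent.Lib.MP_237b21_an.EQ
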